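import Pool.Agent.H5.Mbfcf3aProof

set_option autoImplicit false

namespace Pool.Agent.Results.MP_bfcf3a_al.AllGroups

universe u

open Pool.Agent.H5.Mbfcf3a

/-- For every finite set `Ω` and every permutation group `G` on `Ω`, the `ℝ`-closure of `G` equals
the strong 2-closure of `G`, with the single degenerate exception `|Ω| = 2`, `G = 1`. -/
theorem result : ∀ (Ω : Type u) [Fintype Ω] (G : Subgroup (Equiv.Perm Ω)),
    RClosure G = Strong2Closure G ↔ ¬ (Fintype.card Ω = 2 ∧ G = ⊥) := by
  intro Ω _ G
  constructor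
  · rintro h ⟨h2, rfl⟩
    exact exceptional h2 h
  · intro h
    exact Set.Subset.antisymm (R_sub_S G) (S_sub_R G h)

end Pool.Agent.Results.MP_bfcf3a_al.AllGroups
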